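import Pool.Agent.Lib.helper5.Ray

namespace Pool.Agent.H.MP_ca213f_co

open Set Pool.Agent.Lib.helper5.Ray

/-- The unit square of the regular tiling with lower left corner `u`. -/
def Q (u : ℤ × ℤ) : Set E := {p | p 0 ∈ Icc (u.1 : ℝ) (u.1 + 1) ∧ p 1 ∈ Icc (u.2 : ℝ) (u.2 + 1)}

def nx (n : ℕ) (u : ℤ × ℤ) : ℤ × ℤ :=
  if 1 ≤ u.1 + u.2 then if u.2 < u.1 then (u.1, u.2 + 1) else (u.1 - 1, u.2)
  else if u.1 < 0 ∧ u.1 - u.2 < n - 1 then (u.1, u.2 - 1) else (u.1 + 1, u.2)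

noncomputable def pt (u : ℤ × ℤ) : E := pos 0 !₂[1, 0] !₂[0, 1] u

theorem pt0 (u : ℤ × ℤ) : pt u 0 = u.1 := by simp [pt, pos]

theorem pt1 (u : ℤ × ℤ) : pt u 1 = u.2 := by simp [pt, pos]

theorem spiral {n : ℕ} (hn : 0 < n) :
    ∃ c : Fin n → Set E, (∀ j, ∃ γ : Ici (0 : ℝ) → E, IsProperMap γ ∧ γ.Injective ∧ range γ = c j) ∧
      (∀ i j, i ≠ j → Disjoint (c i) (c j)) ∧ ⋃ j, c j = ⋃ w, segment ℝ (pt w) (pt (nx n w)) := by
  refine arms 0 (fun s t h => ⟨by simpa using congrArg (· 0) h, by simpa using congrArg (· 1) h⟩)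
    (nx n) (fun u => ?_) (fun u v h => ?_) (fun j => (0, -j)) (fun i j h => ?_) (fun j u h => ?_)
    (fun w => ?_)
    (fun u => if 1 ≤ u.1 + u.2 then if u.2 < u.1 then 4 * u.1 else 4 * u.2 + 1
      else if u.1 < 0 ∧ u.1 - u.2 < n - 1 then -4 * u.1 + 2 else -4 * u.2 + 3)
    (fun u => if 1 ≤ u.1 + u.2 then if u.2 < u.1 then u.1 + u.2 else u.2 - u.1
      else if u.1 < 0 ∧ u.1 - u.2 < n - 1 then -u.1 - u.2 else u.1 - u.2) (fun u => ?_) fun u => ?_
  · simp only [nx, Dir]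
    split_ifs <;> simp [Prod.ext_iff]
  · simp only [nx] at h
    split_ifs at h <;> simp only [Prod.mk.injEq] at h <;> exact Prod.ext (by omega) (by omega)
  · simp only [Prod.mk.injEq] at h
    exact Fin.ext (by omega)
  · simp only [nx] at h
    split_ifs at h <;> simp only [Prod.mk.injEq] at h <;> omega
  · obtain ⟨x, y⟩ := w
    by_cases q : x = 0 ∧ y ≤ 0 ∧ -y < n
    · exact Or.inl ⟨⟨(-y).toNat, by omega⟩, Prod.ext (by simp [q.1]) (by simp; omega)⟩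
    · by_contra h
      push Not at h
      have a := h.2 (x, y - 1)
      have b := h.2 (x + 1, y)
      have c := h.2 (x, y + 1)
      have d := h.2 (x - 1, y)
      simp only [nx] at a b c d
      split_ifs at a b c d <;> simp at a b c d <;> omega
  · constructor <;> split_ifs <;> omega
  · simp only [nx]
    split_ifs <;> simp only [true_and] at * <;> omega

/-- The isometry taking the bottom side of the standard square to the side `s` of `Q u`. -/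
noncomputable def σ (u : ℤ × ℤ) (s : Bool × Bool) : E ≃ᵢ E :=
  ((if s.2 then IsometryEquiv.subLeft !₂[1, 1] else 1).trans
    (if s.1 then (LinearIsometryEquiv.piLpCongrLeft 2 ℝ ℝ (Equiv.swap 0 1)).toIsometryEquiv
      else 1)).trans (IsometryEquiv.addLeft (pt u))

theorem σ0 (u s) (p : E) : σ u s p 0 = u.1 + if s.1 then if s.2 then 1 - p 1 else p 1
    else if s.2 then 1 - p 0 else p 0 := by
  obtain ⟨a, b⟩ := s
  cases a <;> cases b <;> simp [σ, pt0]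

theorem σ1 (u s) (p : E) : σ u s p 1 = u.2 + if s.1 then if s.2 then 1 - p 0 else p 0
    else if s.2 then 1 - p 1 else p 1 := by
  obtain ⟨a, b⟩ := s
  cases a <;> cases b <;> simp [σ, pt1]

theorem σQ (u s) : σ u s '' Q 0 = Q u := by
  ext p
  obtain ⟨p, rfl⟩ := (σ u s).surjective p
  rw [(σ u s).injective.mem_set_image]
  obtain ⟨a, b⟩ := s
  cases a <;> cases b <;> simp [Q, σ0, σ1] <;> tauto

def e0 (u : ℤ × ℤ) (s : Bool × Bool) : ℤ × ℤ := if s.2 then (u.1 + 1, u.2 + 1) else u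

def e1 (u : ℤ × ℤ) (s : Bool × Bool) : ℤ × ℤ :=
  if s.1 = s.2 then (u.1 + 1, u.2) else (u.1, u.2 + 1)

theorem σM (u s) : σ u s '' segment ℝ (pt (0, 0)) (pt (1, 0)) =
    segment ℝ (pt (e0 u s)) (pt (e1 u s)) := by
  have := image_segment ℝ (σ u s).toRealAffineIsometryEquiv.toAffineEquiv.toAffineMap
    (pt (0, 0)) (pt (1, 0))
  refine this.trans ?_
  obtain ⟨a, b⟩ := s
  congr 1 <;> ext k <;> fin_cases k <;> cases a <;> cases b <;> simp [σ0, σ1, pt0, pt1, e0, e1]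

def Rl (n : ℕ) (u : ℤ × ℤ) (s : Bool × Bool) (w : ℤ × ℤ) : Prop :=
  w = e0 u s ∧ nx n w = e1 u s ∨ w = e1 u s ∧ nx n w = e0 u s

theorem un {n : ℕ} {s : ℤ × ℤ → Bool × Bool} {m : ℤ × ℤ → ℤ × ℤ} (h : ∀ u, Rl n u (s u) (m u))
    (hm : m.Surjective) : ⋃ w, segment ℝ (pt w) (pt (nx n w)) =
      ⋃ u, σ u (s u) '' segment ℝ (pt (0, 0)) (pt (1, 0)) := by
  rw [← hm.iUnion_comp]
  refine iUnion_congr fun u => ?_
  rcases h u with ⟨a, b⟩ | ⟨a, b⟩
  · rw [σM, b, a]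
  · rw [σM, b, a, segment_symm]

theorem ne01 : pt (0, 0) ≠ pt (1, 0) := fun h => by simpa [pt0] using congrArg (· 0) h

theorem M_sub : segment ℝ (pt (0, 0)) (pt (1, 0)) ⊆ Q 0 := by
  rintro _ ⟨a, b, x, y, z, rfl⟩
  simp [Q, pt0, pt1, y]
  linarith

end Pool.Agent.H.MP_ca213f_co
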